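import Pool.Agent.Helper27.BG.St1
import Pool.Agent.Helper90.MT.Lam

/-!
# BG module TUP: from assignments to tuples
-/

set_option autoImplicit false
set_option linter.unusedSectionVars false

namespace Pool.Agent.Helper27.BG

open Finset
open Pool.Agent.Helper90.MT (lam mat wt szA prt szU VV DD piDD Ok EqD Avd HH Ytil offD MP MD TT)
open Pool.Agent.Helper90.MT.LamAux (prt_inj szA_eq szA_pos prt_pos)

namespace TupAux

variable {α ι : Type} [Fintype α] [DecidableEq α] [Fintype ι] [DecidableEq ι]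

/-- the products over subsets are injective -/
theorem prod_inj (pr : α → ℕ) (hp : ∀ i, (pr i).Prime) (hi : Function.Injective pr) :
    Function.Injective (fun s : Finset α => ∏ i ∈ s, pr i) := by
  intro s t h
  have key : ∀ (u : Finset α) (i : α), pr i ∣ ∏ j ∈ u, pr j ↔ i ∈ u := by
    intro u i
    constructor
    · intro hd
      rw [Prime.dvd_finsetProd_iff (hp i).prime] at hd
      obtain ⟨j, hj, hd⟩ := hd
      rw [Nat.prime_dvd_prime_iff_eq (hp i) (hp j)] at hd
      rw [hi hd]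
      exact hj
    · intro hu
      exact Finset.dvd_prod_of_mem _ hu
  ext i
  rw [← key s i, ← key t i]
  simp only at h
  rw [h]

/-- the sum of reciprocals over the products of sieving primes -/
theorem sum_DD (pr : α → ℕ) (hp : ∀ i, (pr i).Prime) (hi : Function.Injective pr) :
    ∑ d ∈ DD pr, 1 / (d : ℝ) = ∏ i, (1 + 1 / (pr i : ℝ)) := by
  unfold DD
  rw [Finset.sum_image (fun s _ t _ h => prod_inj pr hp hi h)]
  rw [Finset.prod_one_add]
  refine Finset.sum_congr rfl fun s _ => ?_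
  rw [Nat.cast_prod, one_div, ← Finset.prod_inv_distrib]
  exact Finset.prod_congr rfl fun i _ => (one_div _).symm

theorem sum_piDD (pr : α → ℕ) (hp : ∀ i, (pr i).Prime) (hi : Function.Injective pr) :
    ∑ x ∈ piDD ι pr, 1 / ∏ h, (x h : ℝ) = ∏ i, (1 + 1 / (pr i : ℝ)) ^ Fintype.card ι := by
  unfold piDD
  have h1 : ∀ x ∈ Fintype.piFinset (fun _ : ι => DD pr), 1 / ∏ h, (x h : ℝ) =
      ∏ h, 1 / (x h : ℝ) := by
    intro x _
    rw [Finset.prod_div_distrib, Finset.prod_const_one]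
  rw [Finset.sum_congr rfl h1, ← Finset.prod_univ_sum (fun _ : ι => DD pr)
    (fun _ (d : ℕ) => 1 / (d : ℝ)), Finset.prod_const, sum_DD pr hp hi, Finset.card_univ,
    ← Finset.prod_pow]

theorem sum_szA (pr : α → ℕ) :
    ∑ a : α → Option ι, 1 / (szA pr a : ℝ) =
      ∏ i, (1 + (Fintype.card ι : ℝ) / pr i) := by
  have h1 : ∀ a : α → Option ι, 1 / (szA pr a : ℝ) =
      ∏ i, (if a i = none then (1 : ℝ) else 1 / (pr i : ℝ)) := by
    intro a
    unfold szA
    rw [Nat.cast_prod, one_div, ← Finset.prod_inv_distrib]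
    refine Finset.prod_congr rfl fun i _ => ?_
    split_ifs
    · simp
    · rw [one_div]
  rw [Finset.sum_congr rfl fun a _ => h1 a]
  rw [← Fintype.piFinset_univ, ← Finset.prod_univ_sum (fun _ : α => (univ : Finset (Option ι)))
    (fun i (o : Option ι) => if o = none then (1 : ℝ) else 1 / (pr i : ℝ))]
  refine Finset.prod_congr rfl fun i _ => ?_
  rw [Fintype.sum_option]
  simp only [if_true, reduceCtorEq, if_false, Finset.sum_const, Finset.card_univ, nsmul_eq_mul]
  ring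

theorem prt_mem (pr : α → ℕ) (a : α → Option ι) : prt pr a ∈ piDD ι pr := by
  unfold piDD
  rw [Fintype.mem_piFinset]
  intro h
  unfold DD prt
  rw [Finset.mem_image]
  refine ⟨univ.filter (fun i => a i = some h), by simp, ?_⟩
  rw [Finset.prod_filter]

end TupAux

theorem hTup : StTup := by
  intro α ι _ _ _ _ pr G B hp hi hB hG
  classical
  have hinj := prt_inj (ι := ι) pr hp hi
  have hsz : ∀ a : α → Option ι, (szA pr a : ℝ) = ∏ h, (prt pr a h : ℝ) := by
    intro a
    rw [szA_eq pr a, Nat.cast_prod]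
  set T : Finset (ι → ℕ) := (univ : Finset (α → Option ι)).image (fun a => prt pr a) with hT
  have hTs : T ⊆ piDD ι pr := by
    intro x hx
    rw [hT, Finset.mem_image] at hx
    obtain ⟨a, -, rfl⟩ := hx
    exact TupAux.prt_mem pr a
  have hsum : ∀ F : (ι → ℕ) → ℝ, ∑ a : α → Option ι, F (prt pr a) / szA pr a =
      ∑ x ∈ T, F x / ∏ h, (x h : ℝ) := by
    intro F
    rw [hT, Finset.sum_image (fun a _ b _ h => hinj h)]
    refine Finset.sum_congr rfl fun a _ => ?_
    rw [hsz a]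
  have h1 := hsum G
  have h2 : ∑ a : α → Option ι, 1 / (szA pr a : ℝ) = ∑ x ∈ T, 1 / ∏ h, (x h : ℝ) :=
    hsum (fun _ => 1)
  rw [h1]
  have h3 : ∑ x ∈ T, G x / ∏ h, (x h : ℝ) - ∑ x ∈ piDD ι pr, G x / ∏ h, (x h : ℝ) =
      -∑ x ∈ piDD ι pr \ T, G x / ∏ h, (x h : ℝ) := by
    rw [← Finset.sum_sdiff hTs]
    ring
  rw [h3, abs_neg]
  have h4 : ∀ x ∈ piDD ι pr \ T, |G x / ∏ h, (x h : ℝ)| ≤ B * (1 / ∏ h, (x h : ℝ)) := by
    intro x _
    have h5 : (0 : ℝ) ≤ ∏ h, (x h : ℝ) := Finset.prod_nonneg fun h _ => Nat.cast_nonneg _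
    rw [abs_div, abs_of_nonneg h5, mul_one_div]
    exact div_le_div_of_nonneg_right (hG x) h5
  refine (Finset.abs_sum_le_sum_abs _ _).trans ((Finset.sum_le_sum h4).trans ?_)
  rw [← Finset.mul_sum]
  apply mul_le_mul_of_nonneg_left _ hB
  have h6 : ∑ x ∈ piDD ι pr \ T, 1 / ∏ h, (x h : ℝ) =
      ∑ x ∈ piDD ι pr, 1 / ∏ h, (x h : ℝ) - ∑ x ∈ T, 1 / ∏ h, (x h : ℝ) := by
    rw [← Finset.sum_sdiff hTs]
    ring
  rw [h6, ← h2, TupAux.sum_piDD pr hp hi, TupAux.sum_szA pr]
  exact le_refl _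

end Pool.Agent.Helper27.BG
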